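import Pool.Agent.TH972.U.RegA
import Pool.Agent.TH972.U.RsExp
import Pool.Agent.TH972.R3

/-!
# The diameter of the random spanning tree in random environment on the complete graph

The definitions `env`, `treeWt`, `gibbs`, `avg` are in `Pool.Agent.TH972.RDefs`.
-/

set_option autoImplicit false

open Filter Topology Pool.Agent.TH972.RSTRE

namespace Pool.Agent.Results.MP_7946c7_pr.DiameterPhases

/-- The averaged probability of `n ^ (a - ε) ≤ diam ≤ n ^ (a + ε)` tends to one for all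
`ε > 0`, for the sequence `β` of inverse temperatures. -/
def HasDiam (β : ℕ → ℝ) (a : ℝ) : Prop :=
  ∀ ε : ℝ, 0 < ε → Tendsto (fun n : ℕ => avg (β n) n (fun T =>
    (n : ℝ) ^ (a - ε) ≤ (T.diam : ℝ) ∧ (T.diam : ℝ) ≤ (n : ℝ) ^ (a + ε))) atTop (𝓝 1)

/-- The three cases of the question: if `0 ≤ β_n ≤ C n` the diameter is `n ^ (1/2 + o(1))`; if
`β_n = n ^ (1 + γ + o(1))` with `0 < γ < 1/3`, it is `n ^ (1/2 - γ/2 + o(1))`; if
`β_n ≥ C n ^ (4/3)`, it is `n ^ (1/3 + o(1))`, with averaged probability tending to one. -/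
theorem result :
    (∀ C : ℝ, 0 < C → ∀ β : ℕ → ℝ, (∀ n, 0 ≤ β n) → (∀ᶠ n : ℕ in atTop, β n ≤ C * n) →
      HasDiam β (1 / 2)) ∧
    (∀ γ : ℝ, 0 < γ → γ < 1 / 3 → ∀ β : ℕ → ℝ, (∀ n, 0 ≤ β n) →
      Tendsto (fun n : ℕ => Real.log (β n) / Real.log n) atTop (𝓝 (1 + γ)) →
      HasDiam β (1 / 2 - γ / 2)) ∧
    (∀ C : ℝ, 0 < C → ∀ β : ℕ → ℝ, (∀ᶠ n : ℕ in atTop, C * (n : ℝ) ^ (4 / 3 : ℝ) ≤ β n) →
      HasDiam β (1 / 3)) := by
  refine ⟨?_, ?_, ?_⟩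
  · intro C _ β hβ0 hβ ε hε
    exact Pool.Agent.TH972.U.high_temp C β hβ0 hβ ε hε
  · intro γ h0 h3 β hβ0 hβ ε hε
    have h := Pool.Agent.TH972.U.sharp_exp γ h0 h3 β hβ0 hβ ε hε
    have e : (1 - γ) / 2 = 1 / 2 - γ / 2 := by ring
    rw [e] at h
    exact h
  · intro C hC β hβ ε hε
    exact Pool.Agent.TH972.low_temp C hC β hβ ε hε

end Pool.Agent.Results.MP_7946c7_pr.DiameterPhases
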